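import Pool.Agent.helper62.W3.SpecA

set_option autoImplicit false

namespace Pool.Agent.EC

open Finset ArithmeticFunction
open Pool.Agent.CH (Win rgh dl eU Mo ClP ClB)
open Pool.Agent.helper85.BVP (trunc beta Mr Zr)
open GD (kp ks)

private theorem ABL_abel (c F : ℕ → ℝ) (n : ℕ) :
    ∑ b ∈ Ioc 0 (n + 1), c b * F b = (∑ b ∈ Ioc 0 (n + 1), c b) * F (n + 1) -
      ∑ i ∈ range n, (∑ b ∈ Ioc 0 (i + 1), c b) * (F (i + 2) - F (i + 1)) := by
  induction n with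
  | zero => simp
  | succ n ih =>
    rw [Finset.sum_Ioc_succ_top (Nat.zero_le (n + 1)), ih, Finset.sum_Ioc_succ_top (Nat.zero_le (n + 1)),
      Finset.sum_range_succ]
    ring

private theorem ABL_bound (c F : ℕ → ℝ) (E : ℝ) (hE : ∀ Y : ℕ, |∑ b ∈ Ioc 0 Y, c b| ≤ E) (n : ℕ) (K V : ℝ)
    (hK : |F (n + 1)| ≤ K) (hV : ∑ i ∈ range n, |F (i + 2) - F (i + 1)| ≤ V) :
    |∑ b ∈ Ioc 0 (n + 1), c b * F b| ≤ (K + V) * E := by
  have hE0 : 0 ≤ E := (abs_nonneg _).trans (hE 0)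
  rw [ABL_abel]
  have h1 : |(∑ b ∈ Ioc 0 (n + 1), c b) * F (n + 1)| ≤ E * K := by
    rw [abs_mul]
    exact mul_le_mul (hE _) hK (abs_nonneg _) hE0
  have h2 : |∑ i ∈ range n, (∑ b ∈ Ioc 0 (i + 1), c b) * (F (i + 2) - F (i + 1))| ≤ E * V := by
    refine (abs_sum_le_sum_abs _ _).trans ?_
    calc ∑ i ∈ range n, |(∑ b ∈ Ioc 0 (i + 1), c b) * (F (i + 2) - F (i + 1))|
        ≤ ∑ i ∈ range n, E * |F (i + 2) - F (i + 1)| := by
          refine sum_le_sum fun i _ => ?_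
          rw [abs_mul]
          exact mul_le_mul_of_nonneg_right (hE _) (abs_nonneg _)
      _ = E * ∑ i ∈ range n, |F (i + 2) - F (i + 1)| := by rw [mul_sum]
      _ ≤ E * V := mul_le_mul_of_nonneg_left hV hE0
  refine (abs_sub _ _).trans ?_
  linarith

theorem ABL (h1 : TRB_stmt) (h2 : TRV_stmt) : ABL_stmt := by
  intro N hN k h X E c hk hh hX hE
  have hE0 : 0 ≤ E := (abs_nonneg _).trans (hE 0)
  obtain ⟨hf, _, _⟩ := h1
  have hN1 : (1 : ℝ) ≤ (N : ℝ) := by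
    have : 1 ≤ N := by omega
    exact_mod_cast this
  have hN3 : (1 : ℝ) ≤ (N : ℝ) ^ 3 := one_le_pow₀ hN1
  set Lam : ℝ := 1 + Real.log (64 * (N : ℝ) ^ 3) with hLam
  have hlog0 : 0 ≤ Real.log (64 * (N : ℝ) ^ 3) := Real.log_nonneg (by linarith)
  have hLam1 : 1 ≤ Lam := by linarith
  -- bound of the power of the logarithm
  have hlb : ∀ b : ℕ, 1 ≤ b → b ≤ X → 0 ≤ Real.log (b : ℝ) ^ h ∧ Real.log (b : ℝ) ^ h ≤ Lam := by
    intro b hb1 hbX
    have hb1' : (1 : ℝ) ≤ (b : ℝ) := by exact_mod_cast hb1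
    have h3 : 0 ≤ Real.log (b : ℝ) := Real.log_nonneg hb1'
    have h4 : (b : ℝ) ≤ 64 * (N : ℝ) ^ 3 := by
      have : b ≤ 64 * N ^ 3 := hbX.trans hX
      exact_mod_cast this
    have h5 : Real.log (b : ℝ) ≤ Real.log (64 * (N : ℝ) ^ 3) := Real.log_le_log (by linarith) h4
    refine ⟨pow_nonneg h3 _, ?_⟩
    rcases Nat.le_one_iff_eq_zero_or_eq_one.1 hh with h0 | h0
    · rw [h0, pow_zero]
      exact hLam1
    · rw [h0, pow_one]
      linarith
  rcases Nat.eq_zero_or_pos X with hX0 | hX0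
  · rw [hX0]
    simp only [Ioc_self, sum_empty, abs_zero]
    have : 0 ≤ Lam := by linarith
    positivity
  obtain ⟨n, rfl⟩ : ∃ n, X = n + 1 := ⟨X - 1, by omega⟩
  have hre : ∑ b ∈ Ioc 0 (n + 1), c b * Real.log b ^ h * fN N (k * b) =
      ∑ b ∈ Ioc 0 (n + 1), c b * (Real.log b ^ h * fN N (k * b)) :=
    sum_congr rfl fun b _ => by ring
  rw [hre]
  have hmain := ABL_bound c (fun b => Real.log b ^ h * fN N (k * b)) E hE n Lam (Lam + 2 * Lam) ?_ ?_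
  · refine hmain.trans (le_of_eq ?_)
    ring
  · obtain ⟨h3, h4⟩ := hlb (n + 1) (by omega) le_rfl
    obtain ⟨h5, h6⟩ := hf N (k * (n + 1))
    rw [abs_of_nonneg (mul_nonneg h3 h5)]
    calc Real.log ((n + 1 : ℕ) : ℝ) ^ h * fN N (k * (n + 1)) ≤ Real.log ((n + 1 : ℕ) : ℝ) ^ h * 1 :=
          mul_le_mul_of_nonneg_left h6 h3
      _ ≤ Lam := by rw [mul_one]; exact h4
  · -- variation
    have hmono : ∀ i : ℕ, Real.log ((i + 1 : ℕ) : ℝ) ^ h ≤ Real.log ((i + 2 : ℕ) : ℝ) ^ h := by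
      intro i
      refine pow_le_pow_left₀ (Real.log_nonneg ?_) (Real.log_le_log ?_ ?_) h
      · exact_mod_cast Nat.succ_le_succ (Nat.zero_le i)
      · exact_mod_cast Nat.succ_pos i
      · exact_mod_cast Nat.le_succ (i + 1)
    have hterm : ∀ i ∈ range n,
        |(fun b : ℕ => Real.log b ^ h * fN N (k * b)) (i + 2) - (fun b : ℕ => Real.log b ^ h * fN N (k * b)) (i + 1)| ≤
        (Real.log ((i + 1 + 1 : ℕ) : ℝ) ^ h - Real.log ((i + 1 : ℕ) : ℝ) ^ h) +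
          Lam * |fN N (k * (i + 1 + 1)) - fN N (k * (i + 1))| := by
      intro i hi
      have hi' := mem_range.1 hi
      obtain ⟨h3, h4⟩ := hlb (i + 1) (by omega) (by omega)
      obtain ⟨h5, h6⟩ := hf N (k * (i + 1 + 1))
      have h7 := hmono i
      simp only
      have e1 : Real.log ((i + 2 : ℕ) : ℝ) ^ h * fN N (k * (i + 2)) - Real.log ((i + 1 : ℕ) : ℝ) ^ h * fN N (k * (i + 1)) =
          (Real.log ((i + 2 : ℕ) : ℝ) ^ h - Real.log ((i + 1 : ℕ) : ℝ) ^ h) * fN N (k * (i + 2)) +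
            Real.log ((i + 1 : ℕ) : ℝ) ^ h * (fN N (k * (i + 2)) - fN N (k * (i + 1))) := by ring
      rw [e1]
      refine (abs_add_le _ _).trans (add_le_add ?_ ?_)
      · rw [abs_mul, abs_of_nonneg (sub_nonneg.2 h7), abs_of_nonneg h5]
        calc (Real.log ((i + 2 : ℕ) : ℝ) ^ h - Real.log ((i + 1 : ℕ) : ℝ) ^ h) * fN N (k * (i + 2))
            ≤ (Real.log ((i + 2 : ℕ) : ℝ) ^ h - Real.log ((i + 1 : ℕ) : ℝ) ^ h) * 1 :=
              mul_le_mul_of_nonneg_left h6 (sub_nonneg.2 h7)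
          _ = Real.log ((i + 1 + 1 : ℕ) : ℝ) ^ h - Real.log ((i + 1 : ℕ) : ℝ) ^ h := by rw [mul_one]
      · rw [abs_mul, abs_of_nonneg h3]
        exact mul_le_mul_of_nonneg_right h4 (abs_nonneg _)
    refine (sum_le_sum hterm).trans ?_
    rw [sum_add_distrib, ← mul_sum]
    have htel : ∑ i ∈ range n, (Real.log ((i + 1 + 1 : ℕ) : ℝ) ^ h - Real.log ((i + 1 : ℕ) : ℝ) ^ h) =
        Real.log ((n + 1 : ℕ) : ℝ) ^ h - Real.log ((0 + 1 : ℕ) : ℝ) ^ h :=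
      Finset.sum_range_sub (fun i : ℕ => Real.log ((i + 1 : ℕ) : ℝ) ^ h) n
    have hvar := h2 N (by omega) (fun i => k * (i + 1)) (by
      intro i j hij
      exact Nat.mul_le_mul_left k (Nat.succ_le_succ hij)) (by
      have : 1 ≤ k * (0 + 1) := by omega
      exact this) n
    obtain ⟨h3, h4⟩ := hlb (n + 1) (by omega) le_rfl
    obtain ⟨h5, _⟩ := hlb 1 le_rfl (by omega)
    rw [htel]
    have h6 : 0 ≤ Real.log ((0 + 1 : ℕ) : ℝ) ^ h := h5
    have h7 : Lam * ∑ i ∈ range n, |fN N (k * (i + 1 + 1)) - fN N (k * (i + 1))| ≤ Lam * 2 :=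
      mul_le_mul_of_nonneg_left hvar (by linarith)
    linarith

end Pool.Agent.EC
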